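import Pool.Agent.TS.L.Ev
import Pool.Agent.TS.K.Odd

/-!
# TS/L-Com: commutators, and the killers (paper 4.4)

`com`: an element of odd order modulo `N` whose square is in `N` is in `N`. `killer`: either `ev_of` applies to the subgroup of
`exists_odd`, or all the conjugates of the elements of the decomposition group at some `p` are in it.
-/

namespace Pool.Agent.TS

open NumberField IsDedekindDomain Pool.Agent.HWR Pool.Agent.H73.DU Pool.Agent.H73.AL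
  Pool.Agent.LD

theorem com {G : Type} [Group G] (NM N : Subgroup G) [NM.Normal] [N.Normal]
    (hsq : ∀ e ∈ NM, e * e ∈ N) {u t' g : G} {q : ℕ} (hu : u ∈ NM) (hq : ¬ 2 ∣ q)
    (ht : t' ^ q ∈ N) (hn : (g * u * g⁻¹) * t' * (g * u * g⁻¹)⁻¹ ∈ Subgroup.zpowers t' ⊔ N) :
    (g⁻¹ * t' * g) * u * (g⁻¹ * t' * g)⁻¹ * u⁻¹ ∈ N := by
  have hv : g * u * g⁻¹ ∈ NM := ‹NM.Normal›.conj_mem u hu g
  have hc1 : (g * u * g⁻¹) * t' * (g * u * g⁻¹)⁻¹ * t'⁻¹ ∈ NM := by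
    have h1 := NM.mul_mem hv (‹NM.Normal›.conj_mem _ (NM.inv_mem hv) t')
    have e : (g * u * g⁻¹) * t' * (g * u * g⁻¹)⁻¹ * t'⁻¹ =
        (g * u * g⁻¹) * (t' * (g * u * g⁻¹)⁻¹ * t'⁻¹) := by group
    rw [e]
    exact h1
  have hc2 : (g * u * g⁻¹) * t' * (g * u * g⁻¹)⁻¹ * t'⁻¹ ∈ Subgroup.zpowers t' ⊔ N :=
    (Subgroup.zpowers t' ⊔ N).mul_mem hn
      ((Subgroup.zpowers t' ⊔ N).inv_mem (Subgroup.mem_sup_left (Subgroup.mem_zpowers t')))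
  generalize hcc : (g * u * g⁻¹) * t' * (g * u * g⁻¹)⁻¹ * t'⁻¹ = c at hc1 hc2
  obtain ⟨s, hs, n, hn', hsn⟩ := Subgroup.mem_sup_of_normal_right.1 hc2
  obtain ⟨k, rfl⟩ := Subgroup.mem_zpowers_iff.1 hs
  have h1 : (QuotientGroup.mk' N) c = (QuotientGroup.mk' N t') ^ k := by
    rw [← hsn, map_mul, map_zpow]
    have h2 : (QuotientGroup.mk' N) n = 1 := (QuotientGroup.eq_one_iff n).2 hn'
    rw [h2, mul_one]
  have h3 : (QuotientGroup.mk' N t') ^ q = 1 := by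
    rw [← map_pow]
    exact (QuotientGroup.eq_one_iff _).2 ht
  have h4 : ((QuotientGroup.mk' N) c) ^ q = 1 := by
    rw [h1, ← zpow_natCast, ← zpow_mul, mul_comm, zpow_mul, zpow_natCast, h3, one_zpow]
  have h5 : ((QuotientGroup.mk' N) c) ^ 2 = 1 := by
    rw [pow_two, ← map_mul]
    exact (QuotientGroup.eq_one_iff _).2 (hsq c hc1)
  have h6 : orderOf ((QuotientGroup.mk' N) c) = 1 := by
    have h7 := Nat.dvd_gcd (orderOf_dvd_of_pow_eq_one h4) (orderOf_dvd_of_pow_eq_one h5)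
    have h8 : Nat.gcd q 2 = 1 :=
      Nat.Coprime.symm ((Nat.Prime.coprime_iff_not_dvd Nat.prime_two).2 hq)
    rw [h8] at h7
    exact Nat.dvd_one.1 h7
  have h9 : c ∈ N := (QuotientGroup.eq_one_iff c).1 (orderOf_eq_one_iff.1 h6)
  have h10 := N.inv_mem (‹N.Normal›.conj_mem c h9 g⁻¹)
  have e2 : (g⁻¹ * c * g⁻¹⁻¹)⁻¹ = (g⁻¹ * t' * g) * u * (g⁻¹ * t' * g)⁻¹ * u⁻¹ := by
    rw [← hcc]
    group
  rw [e2] at h10
  exact h10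

theorem killer {V T : Finset ℕ} (NM N : Subgroup GQ) [NM.Normal] [N.Normal]
    (hN : IsOpen (N : Set GQ)) (hsq : ∀ e ∈ NM, e * e ∈ N)
    (hu : ∀ (p : ℕ) [Fact p.Prime], p ∈ V → p ∉ T → ∃ u ∈ decomp ℚ_[p] (emb p), u ∈ NM ∧
        ∀ σ : GQ, σ * u * σ⁻¹ * u⁻¹ ∈ N → ∃ d ∈ decomp ℚ_[p] (emb p), d⁻¹ * σ ∈ NM) (t : GQ) :
    ∃ (a q : ℕ) (H : Subgroup GQ), ¬ 2 ∣ q ∧ (t ^ 2 ^ a) ^ q ∈ N ∧ N ≤ H ∧
      ¬ (2 : ℤ) ∣ pc H (Subgroup.zpowers t) ∧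
      (∀ u ∈ H, u * t ^ 2 ^ a * u⁻¹ ∈ Subgroup.zpowers (t ^ 2 ^ a) ⊔ N) ∧
      (EvG V T H ∨ ∃ (p : ℕ) (_ : Fact p.Prime), p ∈ V ∧ p ∉ T ∧ ∃ (g : GQ),
        ∃ d ∈ decomp ℚ_[p] (emb p), d⁻¹ * (g⁻¹ * t ^ 2 ^ a * g) ∈ NM) := by
  have : N.FiniteIndex := (nice_rat T).finiteIndex hN
  obtain ⟨a, q, H, hq, ht, hNH, hodd, hn⟩ := exists_odd N t
  refine ⟨a, q, H, hq, ht, hNH, hodd, hn, ?_⟩
  by_cases h : ∀ (p : ℕ) [Fact p.Prime], p ∈ V → p ∉ T → ∀ g : GQ,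
      ∃ e ∈ decomp ℚ_[p] (emb p), e ∈ NM ∧ g * e * g⁻¹ ∉ H
  · exact Or.inl (ev_of NM N hN hsq H hNH h)
  · right
    push Not at h
    obtain ⟨p, hp, hpV, hpT, g, hg⟩ := h
    obtain ⟨u, hud, huN, hu'⟩ := hu p hpV hpT
    obtain ⟨d, hd, hd'⟩ := hu' _ (com NM N hsq (g := g) huN hq ht (hn _ (hg u hud huN)))
    exact ⟨p, hp, hpV, hpT, g, d, hd, hd'⟩

end Pool.Agent.TS
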