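import Pool.Agent.TS.Defs
import Pool.Agent.LD.L.Pl
import Pool.Agent.MD.F.Cho
import Pool.Agent.MD.P.Defs

/-!
# TS/L-Cho: choice of `x` (paper section 4)

PLAN.  `W` = the set of the places of `M` over the primes `p ∈ V`, `p ∉ T` (finite: finitely many places contain a given nonzero integer; see `pls`/`over_fin` in MD/P/Defs or `not_away_finite`).  They do not contain `2` (`2 ∈ T`, so `p ≠ 2`, and `p`, `2` are coprime).  `y w = e` with `uK w e = -1` (`exists_nonres`, LD/I/Inst; see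
`exists_ep` in MD/F/Cho) if `IsPl p ι w` for the prime `p` of `w`, else `y w = 1`.  `approx_many ∅ W` (MD/I/Apx; see `approx` in MD/F/Cho) gives `x` with `LSq w (x / y w)` for `w ∈ W`.  `LSq w x` iff `LSq w (y w)`; `uK w e = -1` is not a local square (`nsq_neg` in MD/F/Cho); `1` is one (`LSq_sq`).
-/

namespace Pool.Agent.TS

open NumberField IsDedekindDomain Pool.Agent.HWR Pool.Agent.QD Pool.Agent.QD.In Pool.Agent.H73.DU
  Pool.Agent.H73.AL Pool.Agent.LD Pool.Agent.MD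

private theorem cho_nsq_neg {K : Type} [Field K] [NumberField K] {w : HeightOneSpectrum (𝓞 K)} {x : Kˣ}
    (hx : uK w x = -1) : ¬ LSq w x := by
  intro h
  have h1 : uK w x = 1 := uK_of_LSq h
  rw [hx] at h1
  norm_num at h1

/-- two coprime integers do not lie in one prime -/
private theorem cho_cop {K : Type} [Field K] [NumberField K] {w : HeightOneSpectrum (𝓞 K)} {p q : ℕ}
    (hc : Nat.Coprime p q) (hp : ((p : ℕ) : 𝓞 K) ∈ w.asIdeal) (hq : ((q : ℕ) : 𝓞 K) ∈ w.asIdeal) : False := by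
  have h1 : IsCoprime (p : ℤ) (q : ℤ) := Nat.isCoprime_iff_coprime.2 hc
  obtain ⟨a, b, hab⟩ := h1
  have h2 : ((a * p + b * q : ℤ) : 𝓞 K) ∈ w.asIdeal := by
    push_cast
    exact w.asIdeal.add_mem (w.asIdeal.mul_mem_left _ hp) (w.asIdeal.mul_mem_left _ hq)
  rw [hab] at h2
  apply w.isPrime.ne_top
  rw [Ideal.eq_top_iff_one]
  simpa using h2

private theorem cho_lsq {K : Type} [Field K] [NumberField K] {w : HeightOneSpectrum (𝓞 K)}
    {a y : Kˣ} (h1 : LSq w (a / y)) : LSq w a ↔ LSq w y := by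
  constructor
  · intro h2
    have h3 : LSq w (a / (a / y)) := LSq_div h2 h1
    rwa [div_div_cancel] at h3
  · intro h2
    have h3 : LSq w ((a / y) * y) := LSq_mul h1 h2
    rwa [div_mul_cancel] at h3

theorem exists_x {V T : Finset ℕ} (hTp : ∀ p ∈ T, p.Prime) (h2 : 2 ∈ T) (M : NF)
    (ι : M.F →+* AlgebraicClosure ℚ) : ∃ x : (M.F)ˣ,
      ∀ (p : ℕ) [Fact p.Prime], p ∈ V → p ∉ T → ∀ w : HeightOneSpectrum (𝓞 M.F),
        ((p : ℕ) : 𝓞 M.F) ∈ w.asIdeal → (IsPl p ι w → ¬ LSq w x) ∧ (¬ IsPl p ι w → LSq w x) := by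
  classical
  have hfin := not_away_finite M.F (V.filter fun p => p.Prime ∧ p ∉ T)
    (fun p hp => (Finset.mem_filter.1 hp).2.1)
  have hex : ∀ w : HeightOneSpectrum (𝓞 M.F), ∃ y : (M.F)ˣ, ∀ (p : ℕ) [Fact p.Prime], p ∈ V → p ∉ T →
      ((p : ℕ) : 𝓞 M.F) ∈ w.asIdeal → (IsPl p ι w → ¬ LSq w y) ∧ (¬ IsPl p ι w → LSq w y) := by
    intro w
    by_cases hw : ∃ p : ℕ, ∃ _ : Fact p.Prime, p ∈ V ∧ p ∉ T ∧ ((p : ℕ) : 𝓞 M.F) ∈ w.asIdeal ∧ IsPl p ι w
    · obtain ⟨p, hpf, hpV, hpT, hpw, hpl⟩ := hw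
      have h2w : (2 : 𝓞 M.F) ∉ w.asIdeal := by
        intro h2w
        have hne : p ≠ 2 := fun h => hpT (h ▸ h2)
        have hc : Nat.Coprime p 2 := (Nat.coprime_primes hpf.out Nat.prime_two).2 hne
        refine cho_cop hc hpw ?_
        exact_mod_cast h2w
      obtain ⟨e, he⟩ := Pool.Agent.LD.exists_nonres w h2w
      refine ⟨e, ?_⟩
      intro q hqf hqV hqT hqw
      have hqp : q = p := by
        by_contra hne
        exact cho_cop ((Nat.coprime_primes hqf.out hpf.out).2 hne) hqw hpw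
      subst hqp
      exact ⟨fun _ => cho_nsq_neg he, fun h => absurd hpl h⟩
    · refine ⟨1, ?_⟩
      intro q hqf hqV hqT hqw
      refine ⟨fun h => absurd ⟨q, hqf, hqV, hqT, hqw, h⟩ hw, fun _ => ?_⟩
      have h3 := LSq_sq w (1 : (M.F)ˣ)
      rwa [one_pow] at h3
  choose y hy using hex
  obtain ⟨a, -, ha'⟩ := approx_many ∅ hfin.toFinset (fun v _ => Finset.notMem_empty v) 1 y
  refine ⟨a, ?_⟩
  intro p hpf hpV hpT w hpw
  have hwW : w ∈ hfin.toFinset := by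
    rw [hfin.mem_toFinset]
    intro hA
    exact hA p (Finset.mem_filter.2 ⟨hpV, hpf.out, hpT⟩) hpw
  have h3 := cho_lsq (ha' w hwW)
  rw [h3]
  exact hy w p hpV hpT hpw

end Pool.Agent.TS
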