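import Pool.Agent.TS.L.Idx
import Pool.Agent.TS.L.Cho
import Pool.Agent.MX.P.Conj
import Pool.Agent.LD.L.Fld
import Pool.Agent.LD.L.Apx
import Pool.Agent.MD.L.Fix
import Pool.Agent.TS.V.Sub

/-!
# TS/L-Ext: the quadratic extensions of `M` (paper section 4, (4.1))

PLAN.  `M` : NF with `ι : M →+* AlgebraicClosure ℚ`, `stb ι = NM` (`exists_nf`, TS/V/Sub).  `x` from `exists_x`, `s` with `s ^ 2 = ι x` (algebraically closed), `s ≠ 0`.
`N = {g ∈ NM | ∀ γ : GQ, g (γ s) = γ s}`: a normal subgroup; open, since `s` is algebraic (it is `NM` intersected with the normal core of the open subgroup `stabilizer s`, `Nice.core`; the stabilizer of an algebraic element is open).  For `e ∈ NM` and `γ`: `(γ s) ^ 2 = (γ • ι) x`, and `e` fixes it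
(`NM` normal: `e ∈ stb (γ • ι)`), so `e (γ s) = ± γ s`, `e * e ∈ N`.  Index: `idx_pow` with `ε γ a = 1` if `a (γ s) = γ s`, `-1` otherwise (for `a ∈ NM` then `a (γ s) = ε γ a • γ s`; `(γ ν) s = ± γ s` for `ν ∈ NM`).
`u`: for a prime `p ∈ V`, `p ∉ T` let `w_p` be the place of `ι` (`exists_isPl`, it contains `p`: `isPl_mem`): `¬ LSq w_p x`; `lsq_of_fix` (contrapositive): there is `u ∈ decomp`, `u ∈ stb ι = NM`, `u s ≠ s`, so `u s = - s`.  `σ * u * σ⁻¹ * u⁻¹ ∈ N`: it fixes `s`, so `σ u σ⁻¹ s = - s`, `u (σ⁻¹ s) = - σ⁻¹ s ≠ σ⁻¹ s`.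
Let `w` be the place of `σ⁻¹ • ι` (`exists_isPl`).  If `¬ IsPl p ι w`, then `LSq w x`, and `fix_of_lsq` (`u ∈ decomp`, `u ∈ stb (σ⁻¹ • ι)` as `NM` is normal, `(σ⁻¹ s) ^ 2 = (σ⁻¹ • ι) x`) gives `u (σ⁻¹ s) = σ⁻¹ s`, a contradiction.  So `IsPl p ι w`, `conj_pl`: `d ∈ decomp` with `d • ι = σ⁻¹ • ι`,
`σ * d ∈ stb ι = NM`, and `d⁻¹ ∈ decomp` is the required element: `(d⁻¹)⁻¹ * σ = d * σ = d (σ d) d⁻¹ ∈ NM`.
-/

namespace Pool.Agent.TS

open NumberField IsDedekindDomain Pool.Agent.HWR Pool.Agent.QD Pool.Agent.H73.DU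
  Pool.Agent.H73.AL Pool.Agent.LD Pool.Agent.MX

private theorem ext_neg {z : AlgebraicClosure ℚ} (hz : z ≠ 0) : -z ≠ z := by
  intro h
  apply hz
  have h1 : (2 : AlgebraicClosure ℚ) * z = 0 := by
    linear_combination -h
  exact (mul_eq_zero.1 h1).resolve_left two_ne_zero

private def ext_N (NM : Subgroup GQ) (s : AlgebraicClosure ℚ) : Subgroup GQ where
  carrier := {g | g ∈ NM ∧ ∀ γ : GQ, g (γ s) = γ s}
  mul_mem' := by
    rintro a b ⟨ha, ha'⟩ ⟨hb, hb'⟩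
    refine ⟨NM.mul_mem ha hb, fun γ => ?_⟩
    show a (b (γ s)) = γ s
    rw [hb', ha']
  one_mem' := ⟨NM.one_mem, fun _ => rfl⟩
  inv_mem' := by
    rintro a ⟨ha, ha'⟩
    refine ⟨NM.inv_mem ha, fun γ => ?_⟩
    have h1 : a⁻¹ (a (γ s)) = γ s := by
      show (a⁻¹ * a) (γ s) = γ s
      rw [inv_mul_cancel]
      rfl
    rwa [ha'] at h1

private theorem ext_open (NM : Subgroup GQ) (hNM : IsOpen (NM : Set GQ))
    (s : AlgebraicClosure ℚ) : IsOpen (ext_N NM s : Set GQ) := by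
  have hint : IsIntegral ℚ s := by
    have : Algebra.IsAlgebraic ℚ (AlgebraicClosure ℚ) := AlgebraicClosure.isAlgebraic ℚ
    exact (Algebra.IsAlgebraic.isAlgebraic s).isIntegral
  have hfin : FiniteDimensional ℚ (IntermediateField.adjoin ℚ {s}) :=
    IntermediateField.adjoin.finiteDimensional hint
  set E : Subgroup GQ := (IntermediateField.adjoin ℚ {s}).fixingSubgroup with hE
  have h1 : IsOpen (E : Set GQ) := IntermediateField.fixingSubgroup_isOpen _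
  have h2 : IsOpen (E.normalCore : Set GQ) := (nice_rat ∅).core h1
  have h3 : IsOpen ((NM ⊓ E.normalCore : Subgroup GQ) : Set GQ) := hNM.inter h2
  refine Subgroup.isOpen_mono ?_ h3
  rintro g ⟨hg, hg'⟩
  refine ⟨hg, fun γ => ?_⟩
  have h4 : γ⁻¹ * g * γ⁻¹⁻¹ ∈ E := hg' γ⁻¹
  rw [inv_inv] at h4
  have h5 := (IntermediateField.mem_fixingSubgroup_iff _ _).1 h4 s
    (IntermediateField.mem_adjoin_simple_self ℚ s)
  have h6 : γ⁻¹ (g (γ s)) = s := h5
  have h7 := congrArg γ h6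
  have h8 : γ (γ⁻¹ (g (γ s))) = g (γ s) := by
    show (γ * γ⁻¹) (g (γ s)) = _
    rw [mul_inv_cancel]
    rfl
  rwa [h8] at h7

private theorem ext_norm (NM : Subgroup GQ) (hn : NM.Normal) (s : AlgebraicClosure ℚ) :
    (ext_N NM s).Normal := by
  constructor
  rintro g ⟨hg, hg'⟩ h
  refine ⟨hn.conj_mem g hg h, fun γ => ?_⟩
  show h (g ((h⁻¹ * γ) s)) = γ s
  rw [hg']
  show (h * (h⁻¹ * γ)) s = γ s
  rw [mul_inv_cancel_left]

theorem exists_N {V T : Finset ℕ} (hTp : ∀ p ∈ T, p.Prime) (h2 : 2 ∈ T) (NM : Subgroup GQ)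
    [NM.Normal] (hNM : IsOpen (NM : Set GQ)) :
    ∃ N : Subgroup GQ, N.Normal ∧ IsOpen (N : Set GQ) ∧ N ≤ NM ∧ (∀ e ∈ NM, e * e ∈ N) ∧
      N.index ≤ NM.index * 2 ^ NM.index ∧
      ∀ (p : ℕ) [Fact p.Prime], p ∈ V → p ∉ T → ∃ u ∈ decomp ℚ_[p] (emb p), u ∈ NM ∧
        ∀ σ : GQ, σ * u * σ⁻¹ * u⁻¹ ∈ N → ∃ d ∈ decomp ℚ_[p] (emb p), d⁻¹ * σ ∈ NM := by
  classical
  have hn : NM.Normal := inferInstance
  obtain ⟨M, ι, hι, -, -⟩ := exists_nf NM hNM
  obtain ⟨x, hx⟩ := exists_x (V := V) hTp h2 M ι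
  obtain ⟨s, hs⟩ := IsAlgClosed.exists_pow_nat_eq (ι (x : M.F)) (n := 2) two_pos
  have hx0 : ι (x : M.F) ≠ 0 := by
    rw [Ne, map_eq_zero]
    exact x.ne_zero
  have hs0 : s ≠ 0 := by
    rintro rfl
    rw [zero_pow two_ne_zero] at hs
    exact hx0 hs.symm
  have hγ0 : ∀ γ : GQ, γ s ≠ 0 := fun γ h => hs0 ((map_eq_zero γ).1 h)
  have hfix : ∀ e ∈ NM, ∀ z : M.F, e (ι z) = ι z := by
    intro e he z
    rw [← hι] at he
    have h1 : e • ι = ι := MulAction.mem_stabilizer_iff.1 he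
    exact congrArg (fun φ : M.F →+* AlgebraicClosure ℚ => φ z) h1
  have key : ∀ e ∈ NM, ∀ γ : GQ, e (γ s) = γ s ∨ e (γ s) = -γ s := by
    intro e he γ
    have h1 : γ⁻¹ * e * γ⁻¹⁻¹ ∈ NM := hn.conj_mem e he γ⁻¹
    rw [inv_inv] at h1
    have h2 : γ⁻¹ (e (γ (ι (x : M.F)))) = ι (x : M.F) := hfix _ h1 _
    have h3 : e (γ (ι (x : M.F))) = γ (ι (x : M.F)) := by
      have h4 := congrArg γ h2
      have h5 : γ (γ⁻¹ (e (γ (ι (x : M.F))))) = e (γ (ι (x : M.F))) := by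
        show (γ * γ⁻¹) (e (γ (ι (x : M.F)))) = _
        rw [mul_inv_cancel]
        rfl
      rwa [h5] at h4
    rw [← hs, map_pow, map_pow] at h3
    exact sq_eq_sq_iff_eq_or_eq_neg.1 h3
  have hfi : NM.FiniteIndex := (nice_rat T).finiteIndex hNM
  refine ⟨ext_N NM s, ext_norm NM hn s, ext_open NM hNM s, fun g hg => hg.1, ?_, ?_, ?_⟩
  · intro e he
    refine ⟨NM.mul_mem he he, fun γ => ?_⟩
    show e (e (γ s)) = γ s
    rcases key e he γ with h | h
    · rw [h, h]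
    · rw [h, map_neg, h, neg_neg]
  · refine idx_pow NM (ext_N NM s) (fun g hg => hg.1)
      (fun γ a => if a (γ s) = γ s then 1 else -1) ?_ ?_ ?_
    · intro γ a ha b hb
      have h0 := ext_neg (hγ0 γ)
      show (if a (b (γ s)) = γ s then (1 : ℤˣ) else -1) =
        (if a (γ s) = γ s then 1 else -1) * (if b (γ s) = γ s then 1 else -1)
      rcases key a ha γ with h | h <;> rcases key b hb γ with h' | h'
      · rw [h', h, if_pos rfl, mul_one]
      · rw [h', map_neg, h, if_neg h0, if_pos rfl, one_mul]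
      · rw [h', h, if_neg h0, if_pos rfl, mul_one]
      · rw [h', map_neg, h, neg_neg, if_pos rfl, if_neg h0]
        rfl
    · intro γ ν hν a ha
      have h1 : (γ * ν) s = γ s ∨ (γ * ν) s = -γ s := by
        rcases key ν hν 1 with h | h
        · left
          exact congrArg γ h
        · right
          have h2 : γ (ν s) = γ (-s) := congrArg γ h
          rw [map_neg] at h2
          exact h2
      show (if a ((γ * ν) s) = (γ * ν) s then (1 : ℤˣ) else -1) =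
        (if a (γ s) = γ s then 1 else -1)
      rcases h1 with h | h
      · rw [h]
      · rw [h, map_neg]
        exact if_congr neg_inj rfl rfl
    · intro a ha h
      refine ⟨ha, fun γ => ?_⟩
      by_contra hcon
      have h1 := h γ
      simp only [if_neg hcon] at h1
      exact absurd h1 (by decide)
  · intro p _ hpV hpT
    obtain ⟨w, hw⟩ := exists_isPl p ι
    have hnl := (hx p hpV hpT w (isPl_mem hw)).1 hw
    obtain ⟨u, hu, huM, hus⟩ : ∃ u ∈ decomp ℚ_[p] (emb p), u ∈ NM ∧ u s ≠ s := by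
      by_contra hcon
      push Not at hcon
      refine hnl (lsq_of_fix p ι hw x s hs fun g hg hg' => ?_)
      rw [hι] at hg'
      exact hcon g hg hg'
    refine ⟨u, hu, huM, fun σ hσ => ?_⟩
    have hus' : u s = -s := (key u huM 1).resolve_left hus
    have huinv : u⁻¹ s = -s := by
      have h1 : u (-s) = s := by rw [map_neg, hus', neg_neg]
      have h3 : u⁻¹ (u (-s)) = -s := by
        show (u⁻¹ * u) (-s) = -s
        rw [inv_mul_cancel]
        rfl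
      rwa [h1] at h3
    have h1 : σ (u (σ⁻¹ (u⁻¹ s))) = s := hσ.2 1
    rw [huinv, map_neg, map_neg, map_neg] at h1
    have h3 : u (σ⁻¹ s) = -σ⁻¹ s := by
      have h4 : σ (u (σ⁻¹ s)) = -s := neg_eq_iff_eq_neg.1 h1
      have h5 : σ⁻¹ (σ (u (σ⁻¹ s))) = σ⁻¹ (-s) := congrArg (fun z => σ⁻¹ z) h4
      have h6 : σ⁻¹ (σ (u (σ⁻¹ s))) = u (σ⁻¹ s) := by
        show (σ⁻¹ * σ) (u (σ⁻¹ s)) = _
        rw [inv_mul_cancel]
        rfl
      rw [h6, map_neg] at h5
      exact h5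
    have hne : u (σ⁻¹ s) ≠ σ⁻¹ s := by
      rw [h3]
      exact ext_neg (hγ0 σ⁻¹)
    obtain ⟨w', hw'⟩ := exists_isPl p (σ⁻¹ • ι)
    have hpl : IsPl p ι w' := by
      by_contra hcon
      have h4 := (hx p hpV hpT w' (isPl_mem hw')).2 hcon
      refine hne (Pool.Agent.MD.fix_of_lsq p (σ⁻¹ • ι) hw' x (σ⁻¹ s) ?_ h4 u hu ?_)
      · rw [← map_pow, hs]
        rfl
      · refine MulAction.mem_stabilizer_iff.2 ?_
        have h5 : σ * u * σ⁻¹ ∈ stb ι := by
          rw [hι]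
          exact hn.conj_mem u huM σ
        have h6 : (σ * u * σ⁻¹) • ι = ι := MulAction.mem_stabilizer_iff.1 h5
        have h7 : u • σ⁻¹ • ι = σ⁻¹ • ((σ * u * σ⁻¹) • ι) := by
          rw [← mul_smul, ← mul_smul]
          congr 1
          group
        rw [h7, h6]
    obtain ⟨d, hd, hdι⟩ := conj_pl p ι (σ⁻¹ • ι) hpl hw'
    have h4 : σ * d ∈ NM := by
      rw [← hι]
      refine MulAction.mem_stabilizer_iff.2 ?_
      rw [mul_smul, hdι, smul_inv_smul]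
    refine ⟨d⁻¹, inv_mem hd, ?_⟩
    have h5 := hn.conj_mem _ h4 d
    have h6 : d * (σ * d) * d⁻¹ = (d⁻¹)⁻¹ * σ := by group
    rwa [h6] at h5

end Pool.Agent.TS
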