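import Pool.Agent.TS.L.Orb

/-!
# TS/L-Ev: a criterion for even local degrees (paper 4.2)

The orbit of a coset of `H` under the decomposition group `D` has a number of elements which divides the local degree.  If it is odd, the group `D ⊓ NM`, which acts through a `2`-group, has a fixed point, so it acts trivially, against `hu`.
-/

namespace Pool.Agent.TS

open NumberField IsDedekindDomain Pool.Agent.HWR Pool.Agent.H73.DU Pool.Agent.H73.AL
  Pool.Agent.LD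

private theorem ev_grp {Γ : Type} [Group Γ] (D NM N H : Subgroup Γ) [NM.Normal] [N.Normal]
    (hsq : ∀ e ∈ NM, e * e ∈ N) (hH : N ≤ H) (g : Γ)
    (hodd : ¬ 2 ∣ (MulAction.stabilizer D (g : Γ ⧸ H)).index) (e : Γ) (heD : e ∈ D)
    (heN : e ∈ NM) : g⁻¹ * e * g ∈ H := by
  have hidx := MulAction.index_stabilizer D (g : Γ ⧸ H)
  have hcard : ¬ 2 ∣ Nat.card (MulAction.orbit D (g : Γ ⧸ H)) := by
    rw [Nat.card_coe_set_eq, ← hidx]
    exact hodd
  have hfin : Finite (MulAction.orbit D (g : Γ ⧸ H)) := by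
    refine Nat.finite_of_card_ne_zero fun h => hcard ?_
    rw [h]
    exact dvd_zero 2
  let E : Subgroup D := NM.subgroupOf D
  have hEn : E.Normal := inferInstance
  let f : E →* Equiv.Perm (MulAction.orbit D (g : Γ ⧸ H)) :=
    (MulAction.toPermHom D (MulAction.orbit D (g : Γ ⧸ H))).comp E.subtype
  have hf : ∀ (a : E) (x : MulAction.orbit D (g : Γ ⧸ H)), f a x = (a : D) • x := fun a x => rfl
  have hP : IsPGroup 2 f.range := by
    rintro ⟨b, a, rfl⟩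
    refine ⟨1, ?_⟩
    apply Subtype.ext
    change (f a) ^ 2 ^ 1 = 1
    rw [pow_one, pow_two]
    ext x
    rw [Equiv.Perm.mul_apply, hf, hf, Equiv.Perm.one_apply]
    obtain ⟨⟨y, hy⟩⟩ : Nonempty {y : Γ // (y : Γ ⧸ H) = x.1} := by
      obtain ⟨y, hy⟩ := QuotientGroup.mk_surjective x.1
      exact ⟨⟨y, hy⟩⟩
    change ((a : D) : Γ) • ((a : D) : Γ) • x.1 = x.1
    rw [← hy, ← mul_smul]
    change ((((a : D) : Γ) * ((a : D) : Γ) * y : Γ) : Γ ⧸ H) = y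
    rw [eq_comm, QuotientGroup.eq]
    apply hH
    have h1 : ((a : D) : Γ) * ((a : D) : Γ) ∈ N := hsq _ (Subgroup.mem_subgroupOf.1 a.2)
    have h2 := Subgroup.Normal.conj_mem (inferInstance : N.Normal) _ h1 y⁻¹
    rw [inv_inv, mul_assoc] at h2
    exact h2
  obtain ⟨⟨x, hxo⟩, hx⟩ := hP.nonempty_fixed_point_of_prime_not_dvd_card _ hcard
  have hx' : ∀ a : D, a ∈ E → a • x = x := by
    intro a ha
    have h1 := hx ⟨f ⟨a, ha⟩, ⟨⟨a, ha⟩, rfl⟩⟩
    exact congrArg Subtype.val h1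
  obtain ⟨d, hd⟩ := hxo
  have hd' : x = d • (g : Γ ⧸ H) := hd.symm
  have h2 : d * ⟨e, heD⟩ * d⁻¹ ∈ E :=
    hEn.conj_mem _ (Subgroup.mem_subgroupOf.2 heN) d
  have h3 := hx' _ h2
  rw [hd', ← mul_smul, inv_mul_cancel_right, mul_smul] at h3
  have h4 : (⟨e, heD⟩ : D) • (g : Γ ⧸ H) = (g : Γ ⧸ H) := (MulAction.injective d) h3
  have h5 : ((e * g : Γ) : Γ ⧸ H) = (g : Γ ⧸ H) := h4
  rw [eq_comm, QuotientGroup.eq] at h5
  rw [mul_assoc]
  exact h5

theorem ev_of {V T : Finset ℕ} (NM N : Subgroup GQ) [NM.Normal] [N.Normal]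
    (hN : IsOpen (N : Set GQ)) (hsq : ∀ e ∈ NM, e * e ∈ N) (H : Subgroup GQ) (hH : N ≤ H)
    (hu : ∀ (p : ℕ) [Fact p.Prime], p ∈ V → p ∉ T → ∀ g : GQ,
      ∃ e ∈ decomp ℚ_[p] (emb p), e ∈ NM ∧ g * e * g⁻¹ ∉ H) : EvG V T H := by
  have _ := hN
  intro F ψ hψ p hpV hp hpT w hw
  have : Fact p.Prime := ⟨hp⟩
  obtain ⟨ψ1, h1⟩ := exists_emb p F.F w hw
  obtain ⟨g, hg⟩ := trans_emb F.F ψ ψ1
  by_contra hodd
  have h2 := card_orb p ψ1 h1
  have h3 : Nat.card {χ : F.F →+* AlgebraicClosure ℚ // ∃ d ∈ decomp ℚ_[p] (emb p), d • ψ1 = χ} =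
      (MulAction.stabilizer (decomp ℚ_[p] (emb p)) ψ1).index := by
    rw [MulAction.index_stabilizer, ← Nat.card_coe_set_eq]
    refine Nat.card_congr (Equiv.subtypeEquivRight fun χ => ?_)
    constructor
    · rintro ⟨d, hd, h⟩
      exact ⟨⟨d, hd⟩, h⟩
    · rintro ⟨d, h⟩
      exact ⟨d.1, d.2, h⟩
  have h4 : MulAction.stabilizer (decomp ℚ_[p] (emb p)) ψ1 ≤
      MulAction.stabilizer (decomp ℚ_[p] (emb p)) (g : GQ ⧸ H) := by
    intro d hd
    have h5 : (d : GQ) • ψ1 = ψ1 := MulAction.mem_stabilizer_iff.1 hd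
    have h6 : g⁻¹ * (d : GQ) * g ∈ stb ψ := by
      refine MulAction.mem_stabilizer_iff.2 ?_
      rw [mul_smul, mul_smul, hg, h5, ← hg, inv_smul_smul]
    refine MulAction.mem_stabilizer_iff.2 ?_
    change (((d : GQ) * g : GQ) : GQ ⧸ H) = (g : GQ ⧸ H)
    rw [eq_comm, QuotientGroup.eq, ← mul_assoc]
    exact hψ h6
  have h5 := Subgroup.index_dvd_of_le h4
  have h6 : ¬ 2 ∣ (MulAction.stabilizer (decomp ℚ_[p] (emb p)) (g : GQ ⧸ H)).index := by
    intro h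
    apply hodd
    rw [← h2, h3]
    exact h.trans h5
  obtain ⟨e, he, heN, heH⟩ := hu p hpV hpT g⁻¹
  apply heH
  rw [inv_inv]
  exact ev_grp _ NM N H hsq hH g h6 e he heN

end Pool.Agent.TS
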