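import Pool.Agent.TS.Defs
import Pool.Agent.MX.P.Conj
import Pool.Agent.LD.L.ExEmb
import Pool.Agent.LD.L.Deg
import Pool.Agent.MD.P.Sum

/-!
# TS/L-Orb: the orbits of the decomposition group have local degree many elements (paper 4.3)

PLAN.  Let `m(F, w)` be the number of the embeddings `χ : F →+* AlgebraicClosure ℚ` with `IsPl p χ w`.  By `conj_pl` (MX/P/Conj) and since the elements of `decomp` preserve the norm (`fx_aut` in MD/L/Fix: an automorphism of `AlgebraicClosure ℚ_[p]` is an isometry) the orbit of `ψ` is the set of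
these embeddings.  To prove: `m(F, w) = locDeg ℚ w` for every place `w` of `F` over `p`.
(a) `∑_{w over p} m(F, w) = [F : ℚ] = ∑ locDeg ℚ w` (`exists_isPl`, uniqueness of the place of an embedding, `sum_locDeg` with `K = ℚ`, `pls` of MD/P/Defs; the place of `ℚ` under all of them is the same: `isPl_over`; `NumberField.Embeddings.card`).
(b) `L / ℚ` Galois: for two places `w, w'` over `p` there is `σ : L ≃ₐ[ℚ] L` with `σ w = w'` (choose embeddings `χ, χ'` inducing them, `exists_emb`; `χ' = χ ∘ σ` since `L / ℚ` is normal), `χ ↦ χ ∘ σ` is a bijection between the embeddings inducing `w'` and `w`, and the local degrees agree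
(`Ideal.ramificationIdx`, `inertiaDeg` are invariant: `Ideal.ramificationIdxIn_eq_ramificationIdx`, `inertiaDegIn_eq_inertiaDeg` for the Galois group, or `locDeg` by transport).  So `m(L, w) = locDeg ℚ w` from (a).
(c) `F → L`, `L / ℚ` Galois (`L` = normal closure, see LD/L/ExEmb, H73/AL/RelFin `exists_L`): for `w` of `F`: `∑_{P over w} m(L, P) = [L : F] m(F, w)` (every embedding of `F` has `[L : F]` extensions to `L`) and `∑_{P over w} locDeg ℚ P = ∑ locDeg F P * locDeg ℚ w = [L : F] locDeg ℚ w`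
(`locDeg_tower`, `sum_locDeg`).  Cancel `[L : F] > 0`.
-/

namespace Pool.Agent.TS

open NumberField IsDedekindDomain Pool.Agent.HWR Pool.Agent.H73.DU Pool.Agent.H73.AL
  Pool.Agent.LD

open Classical in
/-- the embeddings inducing the place `w` -/
private noncomputable def obS (p : ℕ) [Fact p.Prime] {F : Type} [Field F] [NumberField F]
    (w : HeightOneSpectrum (𝓞 F)) : Finset (F →+* AlgebraicClosure ℚ) :=
  Finset.univ.filter fun χ => IsPl p χ w

private theorem ob_mem {p : ℕ} [Fact p.Prime] {F : Type} [Field F] [NumberField F]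
    {w : HeightOneSpectrum (𝓞 F)} {χ : F →+* AlgebraicClosure ℚ} : χ ∈ obS p w ↔ IsPl p χ w := by
  classical
  simp only [obS, Finset.mem_filter, Finset.mem_univ, true_and]

private theorem ob_norm {p : ℕ} [Fact p.Prime] {d : GQ} (hd : d ∈ decomp ℚ_[p] (emb p))
    (x : AlgebraicClosure ℚ) : ‖emb p (d x)‖ = ‖emb p x‖ := by
  obtain ⟨σ, hσ⟩ := hd
  rw [hσ x]
  have h := (spectralNorm_eq_of_equiv σ (emb p x)).symm
  exact h

private theorem ob_uniq {p : ℕ} [Fact p.Prime] {F : Type} [Field F] [NumberField F]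
    {χ : F →+* AlgebraicClosure ℚ} {w w' : HeightOneSpectrum (𝓞 F)} (h : IsPl p χ w)
    (h' : IsPl p χ w') : w = w' := by
  apply HeightOneSpectrum.ext
  ext x
  rw [h x, h' x]

private theorem ob_down {p : ℕ} [Fact p.Prime] {F L : Type} [Field F] [NumberField F] [Field L]
    [NumberField L] [Algebra F L] {χ : L →+* AlgebraicClosure ℚ} {w : HeightOneSpectrum (𝓞 F)}
    {P : HeightOneSpectrum (𝓞 L)} (hP : Over w P) (h : IsPl p χ P) :
    IsPl p (χ.comp (algebraMap F L)) w := by
  intro x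
  rw [← hP, Ideal.mem_comap, h]
  rfl

private theorem ob_alg (inst : Algebra ℚ (AlgebraicClosure ℚ)) :
    IsAlgClosure ℚ (AlgebraicClosure ℚ) := by
  have h : inst = AlgebraicClosure.instAlgebra ℚ := Subsingleton.elim _ _
  subst h
  infer_instance

open Classical in
private theorem ob_ext {F L : Type} [Field F] [NumberField F] [Field L] [NumberField L]
    [Algebra F L] (χ : F →+* AlgebraicClosure ℚ) :
    (Finset.univ.filter fun χ' : L →+* AlgebraicClosure ℚ =>
      χ'.comp (algebraMap F L) = χ).card = Module.finrank F L := by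
  have hal : IsAlgClosed (AlgebraicClosure ℚ) := inferInstance
  let _ : Algebra F (AlgebraicClosure ℚ) := χ.toAlgebra
  rw [← AlgHom.card F L (AlgebraicClosure ℚ), ← Fintype.card_subtype]
  exact Fintype.card_congr
    { toFun := fun c => { toRingHom := c.1, commutes' := fun x => RingHom.congr_fun c.2 x }
      invFun := fun f => ⟨f.toRingHom, RingHom.ext f.commutes⟩
      left_inv := fun _ => rfl
      right_inv := fun _ => rfl }

private theorem ob_sum (p : ℕ) [Fact p.Prime] {F : Type} (L : Type) [Field F] [NumberField F]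
    [Field L] [NumberField L] [Algebra F L] (w : HeightOneSpectrum (𝓞 F)) :
    ∑ P ∈ Pool.Agent.MD.pls L w, (obS p P).card = Module.finrank F L * (obS p w).card := by
  classical
  choose pl hpl using fun χ' : L →+* AlgebraicClosure ℚ => exists_isPl p χ'
  obtain ⟨T, hT⟩ : ∃ T : Finset (L →+* AlgebraicClosure ℚ), ∀ χ', χ' ∈ T ↔
      IsPl p (χ'.comp (algebraMap F L)) w :=
    ⟨Finset.univ.filter fun χ' => IsPl p (χ'.comp (algebraMap F L)) w, fun χ' => by
      simp only [Finset.mem_filter, Finset.mem_univ, true_and]⟩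
  have h1 : T.card = ∑ P ∈ Pool.Agent.MD.pls L w, (T.filter fun χ' => pl χ' = P).card :=
    Finset.card_eq_sum_card_fiberwise fun χ' hχ' =>
      Pool.Agent.MD.mem_pls.2 (isPl_over rfl ((hT χ').1 hχ') (hpl χ'))
  have h2 : ∀ P ∈ Pool.Agent.MD.pls L w, T.filter (fun χ' => pl χ' = P) = obS p P := by
    intro P hP
    ext χ'
    rw [Finset.mem_filter, ob_mem, hT]
    constructor
    · rintro ⟨-, rfl⟩
      exact hpl χ'
    · intro h
      exact ⟨ob_down (Pool.Agent.MD.mem_pls.1 hP) h, ob_uniq (hpl χ') h⟩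
  have h3 : T.card = ∑ χ ∈ obS p w,
      (T.filter fun χ' => χ'.comp (algebraMap F L) = χ).card :=
    Finset.card_eq_sum_card_fiberwise fun χ' hχ' => ob_mem.2 ((hT χ').1 hχ')
  have h4 : ∀ χ ∈ obS p w, (T.filter fun χ' => χ'.comp (algebraMap F L) = χ).card =
      Module.finrank F L := by
    intro χ hχ
    rw [← ob_ext (L := L) χ]
    congr 1
    ext χ'
    rw [Finset.mem_filter, Finset.mem_filter, hT]
    constructor
    · rintro ⟨-, h⟩
      exact ⟨Finset.mem_univ _, h⟩
    · rintro ⟨-, h⟩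
      refine ⟨?_, h⟩
      rw [h]
      exact ob_mem.1 hχ
  rw [Finset.sum_congr rfl h4, Finset.sum_const, smul_eq_mul] at h3
  rw [← Finset.sum_congr rfl fun P hP => congrArg Finset.card (h2 P hP), ← h1, h3, mul_comm]

/-- the Galois group permutes transitively the places over `v` -/
private theorem ob_gal (p : ℕ) [Fact p.Prime] {K L : Type} [Field K] [NumberField K]
    [Field L] [NumberField L] [Algebra K L] [IsGalois K L] (v : HeightOneSpectrum (𝓞 K))
    (P Q : HeightOneSpectrum (𝓞 L)) (hP : Over v P) (hQ : Over v Q) :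
    locDeg K P = locDeg K Q ∧ (obS p P).card ≤ (obS p Q).card := by
  classical
  have i1 : P.asIdeal.IsPrime := P.isPrime
  have i2 : Q.asIdeal.IsPrime := Q.isPrime
  have i3 : P.asIdeal.LiesOver v.asIdeal := ⟨hP.symm⟩
  have i4 : Q.asIdeal.LiesOver v.asIdeal := ⟨hQ.symm⟩
  refine ⟨?_, ?_⟩
  · unfold locDeg
    rw [Ideal.ramificationIdx_eq_of_isGaloisGroup v.asIdeal P.asIdeal Q.asIdeal (L ≃ₐ[K] L),
      Ideal.inertiaDeg_eq_of_isGaloisGroup v.asIdeal P.asIdeal Q.asIdeal (L ≃ₐ[K] L)]
  · obtain ⟨σ, hσ⟩ := Ideal.exists_comap_galRestrict_eq (𝓞 K) K L (𝓞 L)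
      (p := v.asIdeal) (P₁ := P.asIdeal) (P₂ := Q.asIdeal) ⟨i1, i3⟩ ⟨i2, i4⟩
    refine Finset.card_le_card_of_injOn (fun χ => χ.comp (σ : L →+* L)) ?_ ?_
    · intro χ hχ
      rw [Finset.mem_coe, ob_mem] at hχ ⊢
      intro x
      rw [← hσ, Ideal.mem_comap]
      have h4 : ((galRestrict (𝓞 K) K L (𝓞 L) σ x : 𝓞 L) : L) = σ (x : L) :=
        algebraMap_galRestrict_apply (𝓞 K) σ x
      have h5 := hχ (galRestrict (𝓞 K) K L (𝓞 L) σ x)
      rw [h4] at h5
      exact h5
    · intro χ _ χ' _ h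
      refine RingHom.ext fun x => ?_
      have h6 := RingHom.congr_fun h (σ.symm x)
      simpa using h6

private theorem ob_closure (F : Type) [Field F] [NumberField F] : ∃ (L : Type) (_ : Field L)
    (_ : NumberField L) (_ : Algebra F L), IsGalois ℚ L := by
  have hcl : IsAlgClosure ℚ (AlgebraicClosure ℚ) := ob_alg inferInstance
  have hal : IsAlgClosed (AlgebraicClosure ℚ) := inferInstance
  have hno : Normal ℚ (AlgebraicClosure ℚ) := IsAlgClosure.normal ℚ _
  let φ1 : F →ₐ[ℚ] AlgebraicClosure ℚ := IsAlgClosed.lift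
  let L : IntermediateField ℚ (AlgebraicClosure ℚ) :=
    IntermediateField.normalClosure ℚ F (AlgebraicClosure ℚ)
  have hfin : FiniteDimensional ℚ L := normalClosure.is_finiteDimensional ℚ F _
  have hnorm : Normal ℚ L := normalClosure.normal ℚ F _
  have hgal : IsGalois ℚ L := {}
  have hnf : NumberField L := {}
  have hle : φ1.fieldRange ≤ L := AlgHom.fieldRange_le_normalClosure φ1
  let φ1' : F →+* L := (IntermediateField.inclusion hle).toRingHom.comp φ1.rangeRestrict.toRingHom
  exact ⟨L, inferInstance, hnf, φ1'.toAlgebra, hgal⟩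

theorem card_orb (p : ℕ) [Fact p.Prime] {F : Type} [Field F] [NumberField F]
    (ψ : F →+* AlgebraicClosure ℚ) {w : HeightOneSpectrum (𝓞 F)} (hw : IsPl p ψ w) :
    Nat.card {χ : F →+* AlgebraicClosure ℚ // ∃ d ∈ decomp ℚ_[p] (emb p), d • ψ = χ} =
      locDeg ℚ w := by
  have e0 : Nat.card {χ : F →+* AlgebraicClosure ℚ // ∃ d ∈ decomp ℚ_[p] (emb p), d • ψ = χ} =
      (obS p w).card := by
    refine Nat.subtype_card (obS p w) fun χ => ?_
    rw [ob_mem]
    constructor
    · intro h
      exact Pool.Agent.MX.conj_pl p ψ χ hw h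
    · rintro ⟨d, hd, rfl⟩
      intro x
      rw [hw x, smul_emb, ob_norm hd]
  rw [e0]
  obtain ⟨L, _, _, _, hG⟩ := ob_closure F
  have hT : IsScalarTower ℚ F L := IsScalarTower.of_algebraMap_eq' (Subsingleton.elim _ _)
  obtain ⟨v, hv⟩ := exists_isPl p (ψ.comp (algebraMap ℚ F))
  have hvw : Over v w := isPl_over rfl hv hw
  have hone : (obS p v).card = 1 := by
    refine Finset.card_eq_one.2 ⟨ψ.comp (algebraMap ℚ F), ?_⟩
    ext χ
    rw [ob_mem, Finset.mem_singleton]
    constructor
    · intro _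
      exact Subsingleton.elim _ _
    · rintro rfl
      exact hv
  have h1 := ob_sum p L v
  have h2 := Pool.Agent.MD.sum_locDeg L v
  rw [hone, mul_one, ← h2] at h1
  obtain ⟨Q, hQ⟩ := exists_over' L v
  have h3 : ∀ P ∈ Pool.Agent.MD.pls L v, (obS p P).card = (obS p Q).card ∧
      locDeg ℚ P = locDeg ℚ Q := by
    intro P hP
    have a := ob_gal p v P Q (Pool.Agent.MD.mem_pls.1 hP) hQ
    have b := ob_gal p v Q P hQ (Pool.Agent.MD.mem_pls.1 hP)
    exact ⟨le_antisymm a.2 b.2, a.1⟩
  rw [Finset.sum_congr rfl fun P hP => (h3 P hP).1, Finset.sum_congr rfl fun P hP => (h3 P hP).2,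
    Finset.sum_const, Finset.sum_const, smul_eq_mul, smul_eq_mul] at h1
  have h4 : 0 < (Pool.Agent.MD.pls L v).card :=
    Finset.card_pos.2 ⟨Q, Pool.Agent.MD.mem_pls.2 hQ⟩
  have h5 : (obS p Q).card = locDeg ℚ Q := Nat.eq_of_mul_eq_mul_left h4 h1
  have h6 : ∀ P ∈ Pool.Agent.MD.pls L w, (obS p P).card = locDeg ℚ w * locDeg F P := by
    intro P hP
    have hwP := Pool.Agent.MD.mem_pls.1 hP
    obtain ⟨a, b⟩ := h3 P (Pool.Agent.MD.mem_pls.2 (over_trans hvw hwP))
    rw [a, h5, ← b, locDeg_tower ℚ F L w P hwP]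
  have h7 := ob_sum p L w
  rw [Finset.sum_congr rfl h6, ← Finset.mul_sum, Pool.Agent.MD.sum_locDeg L w, mul_comm] at h7
  exact (Nat.eq_of_mul_eq_mul_left Module.finrank_pos h7).symm

end Pool.Agent.TS
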