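import Mathlib

/-!
# TS/L-Idx: bound of an index

PLAN.  `N` has relative index at most `2 ^ NM.index` in `NM`: the map `NM → ((G ⧸ NM) → ℤˣ)`, `a ↦ (x ↦ ε x.out a)`, is a homomorphism (`hmul`) with kernel contained in `N.subgroupOf NM` (`hker`: `ε γ a = ε x.out a` for `x = γ NM`, as `x.out = γ * ν`, `hinv`);
so `N.relIndex NM ≤` index of the kernel `≤ Nat.card ((G ⧸ NM) → ℤˣ) = 2 ^ NM.index` (`Nat.card ℤˣ = 2`).  `N.index = N.relIndex NM * NM.index`.
-/

namespace Pool.Agent.TS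

theorem idx_pow {G : Type} [Group G] (NM N : Subgroup G) [NM.FiniteIndex] (hle : N ≤ NM)
    (ε : G → G → ℤˣ) (hmul : ∀ γ : G, ∀ a ∈ NM, ∀ b ∈ NM, ε γ (a * b) = ε γ a * ε γ b)
    (hinv : ∀ γ : G, ∀ ν ∈ NM, ∀ a ∈ NM, ε (γ * ν) a = ε γ a)
    (hker : ∀ a ∈ NM, (∀ γ : G, ε γ a = 1) → a ∈ N) : N.index ≤ NM.index * 2 ^ NM.index := by
  classical
  have hfin : Finite (G ⧸ NM) := inferInstance
  let φ : NM →* ((G ⧸ NM) → ℤˣ) := MonoidHom.mk' (fun a x => ε x.out a) fun a b => by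
    funext x
    exact hmul x.out a a.2 b b.2
  have hk : φ.ker ≤ N.subgroupOf NM := by
    intro a ha
    rw [MonoidHom.mem_ker] at ha
    rw [Subgroup.mem_subgroupOf]
    refine hker a a.2 fun γ => ?_
    obtain ⟨ν, hν⟩ := QuotientGroup.mk_out_eq_mul NM γ
    have h1 : ε (QuotientGroup.mk γ : G ⧸ NM).out a = 1 := congrFun ha (QuotientGroup.mk γ)
    rw [hν, hinv γ ν ν.2 a a.2] at h1
    exact h1
  have hcard : Nat.card ((G ⧸ NM) → ℤˣ) = 2 ^ NM.index := by
    rw [Nat.card_fun, Subgroup.index]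
    simp
  have hidx : φ.ker.index ≤ 2 ^ NM.index := by
    rw [Subgroup.index_ker, ← hcard]
    exact Nat.card_le_card_of_injective Subtype.val Subtype.val_injective
  have hne : φ.ker.index ≠ 0 := by
    rw [Subgroup.index_ker]
    exact Nat.card_ne_zero.2 ⟨inferInstance, inferInstance⟩
  have hfi : φ.ker.FiniteIndex := ⟨hne⟩
  have h2 : (N.subgroupOf NM).index ≤ φ.ker.index := Subgroup.index_antitone hk
  have h3 : N.relIndex NM * NM.index = N.index := Subgroup.relIndex_mul_index hle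
  rw [← h3, mul_comm]
  exact Nat.mul_le_mul_left _ (h2.trans hidx)

end Pool.Agent.TS
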